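import Pool.Agent.helper32.TRI.Spec

/-!
# Project TRI (MP_561ff4_al), row EM4: the vectors `em4 h v`
-/

set_option autoImplicit false

open Finset

namespace Pool.Agent.TRI

open Pool.Agent.EXC

theorem EM4_cf {K : Type} [Field K] (h : Fin 4 → K) (v : Fin 24 → K) (j : Fin 24) : cf (em4 h v) (lt4 j) = v j := by
  let φ : Lm C4 K →+ K := AddMonoidHom.mk' (fun x => cf x (lt4 j)) (fun x y => cf_add C4 x y (lt4 j))
  have h0 : ∀ x, φ x = cf x (lt4 j) := fun _ => rfl
  have h1 : cf (em4 h v) (lt4 j) = cf ((h, 0) : Lm C4 K) (lt4 j) + ∑ i, φ (v i • (E C4 (lt4 i) : Lm C4 K)) := by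
    rw [← map_sum, h0, ← cf_add]
    rfl
  rw [h1, cf_mk_zero, zero_add, Finset.sum_eq_single j]
  · rw [h0, cf_smul, cf_E C4 (lt4_root j).1, if_pos rfl, mul_one]
  · intro i _ hij
    rw [h0, cf_smul, cf_E C4 (lt4_root i).1, if_neg (fun h => hij (lt4_inj j i h).symm), mul_zero]
  · intro h
    exact absurd (Finset.mem_univ j) h

theorem EM4_fst {K : Type} [Field K] (h : Fin 4 → K) (v : Fin 24 → K) : (em4 h v).1 = h := by
  unfold em4
  rw [Prod.fst_add, Prod.fst_sum]
  have : ∀ i, (v i • (E C4 (lt4 i) : Lm C4 K)).1 = 0 := by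
    intro i
    rw [Prod.smul_fst, E_fst, smul_zero]
  rw [Finset.sum_congr rfl (fun i _ => this i), Finset.sum_const_zero, add_zero]

theorem EM4 : EM4_stmt := by
  intro K _ h h' v v' he
  refine ⟨?_, ?_⟩
  · rw [← EM4_fst h v, ← EM4_fst h' v', he]
  · funext j
    rw [← EM4_cf h v j, ← EM4_cf h' v' j, he]

end Pool.Agent.TRI
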